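import Pool.Agent.R872.QR.Fin
import Pool.Agent.R872.QR.Hb
import Pool.Agent.R872.QR.Chi
import Pool.Agent.R872.QR.SPEC
import Pool.Agent.R872.QR.Pd
import Pool.Agent.R872.QR.Cnt1
import Pool.Agent.R872.QR.CNT2
import Pool.Agent.R872.QR.TK
import Pool.Agent.R872.QR.MER
import Pool.Agent.R872.QR.PRE
import Pool.Agent.R872.QR.PAIR
import Pool.Agent.R872.QR.NPR
import Pool.Agent.R872.QR.DCT

open MeasureTheory Filter Finset

namespace Pool.Agent.Results.MP_a0085b_an.ShiftedSquares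

/-- **Q2, answer yes.**  For every multiplicative measure preserving system and every measurable set
of positive measure, the averages of `μ (T_{n²+n}⁻¹ A ∩ T_{m²}⁻¹ A)` over `n, m ≤ N` have positive
lower limit. -/
theorem result (X : Type) [MeasurableSpace X] (μ : Measure X) [IsProbabilityMeasure μ]
    (T : ℕ → X → X) (hT : ∀ n, 0 < n → MeasurePreserving (T n) μ μ) (hT1 : ∀ x, T 1 x = x)
    (hmul : ∀ m n, 0 < m → 0 < n → ∀ x, T (n * m) x = T n (T m x))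
    (A : Set X) (hA : MeasurableSet A) (hpos : 0 < μ A) :
    0 < liminf (fun N : ℕ => (∑ n ∈ Icc 1 N, ∑ m ∈ Icc 1 N,
      μ.real ((T (n ^ 2 + n)) ⁻¹' A ∩ (T (m ^ 2)) ⁻¹' A)) / (N : ℝ) ^ 2) atTop :=
  Pool.R872.QR.fin Pool.R872.QR.t_HB Pool.R872.QR.t_CHI Pool.R872.QR.SPEC Pool.R872.QR.t_PD
    Pool.R872.QR.CNT2 (Pool.R872.QR.PAIR (Pool.R872.QR.PRE Pool.R872.QR.TK Pool.R872.QR.MER)
      Pool.R872.QR.t_CNT1 Pool.R872.QR.CNT2) Pool.R872.QR.NPR Pool.R872.QR.DCT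
    X μ T hT hT1 hmul A hA hpos

end Pool.Agent.Results.MP_a0085b_an.ShiftedSquares
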